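import Pool.Agent.Lib_helper3.AU.DefsF
import Pool.Agent.Lib_helper29.SY.Defs
import Pool.Agent.Lib_helper35.RS4.Stmt4

/-!
# Composite Rubin (CR): the conditions in the final statements
-/

set_option autoImplicit false
set_option linter.unusedSectionVars false

namespace Pool.Agent.CR

open Pool.Agent.RSK Pool.Agent.RS2 Pool.Agent.RS3 Pool.Agent.SY Pool.Agent.AU
open NumberField IsDedekindDomain

/-- The condition on a cyclic extension `K/F`: the automorphism group of the subgroup of
`Gal(K/F)` of the elements of order prime to `q` is generated by `x ↦ x ^ q` and the conjugations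
by the automorphisms `τ` of the field `K` which normalize `Gal(K/F)`. -/
def AutAt (q : ℕ) (F K : Type) [Field F] [Field K] [Algebra F K] : Prop :=
  ∀ a : ℕ, a.Coprime (Module.finrank F K) → ∃ (i b : ℕ) (τ : K ≃+* K),
    (∀ (σ : K ≃ₐ[F] K) (x : K), τ (σ x) = (σ ^ b) (τ x)) ∧
    ∀ σ : K ≃ₐ[F] K, ¬ q ∣ orderOf σ → σ ^ (b * q ^ i) = σ ^ a

section W

variable {F H : Type} [Field F] [NumberField F] [Field H] [NumberField H] [Algebra F H]
  {G : Type} [CommGroup G] [Fintype G]

/-- the decomposition group of a place `v` of `F` (the group `G` is commutative) -/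
def dgF (ι : G ≃* (H ≃ₐ[F] H)) (v : Pl F) : Subgroup G where
  carrier := {g | ∀ W : Pl H, dn F W = v → act (ι g) W = W}
  one_mem' := fun W _ => by rw [map_one, act_one]
  mul_mem' := fun {a b} ha hb W hW => by rw [map_mul, act_mul, hb W hW, ha W hW]
  inv_mem' := fun {a} ha W hW => by
    have h := ha W hW
    rw [map_inv]
    conv_lhs => rw [← h]
    rw [← act_mul, inv_mul_cancel, act_one]

/-- Let `q ^ k` and `q ^ e` be the largest powers of `q` dividing the order and the exponent of `G`,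
and `m = q ^ (e - 1) ((k - e) (q - 1) + 1)`. Then `#S ≥ r + 1 + m`, and at least `r + m` places in
`S` have a decomposition group contained in `M`, for all subgroups `M ≠ G` of index prime to `q`
with `G/M` cyclic. (There is no such `M` if `G` is a `q`-group.) The archimedean places belong
to `S`. -/
def SBigQ (q : ℕ) (ι : G ≃* (H ≃ₐ[F] H)) (S : Finset (HeightOneSpectrum (𝓞 F))) (r : ℕ) : Prop :=
  ∃ k e m : ℕ, k = (Nat.card G).factorization q ∧ e = (Monoid.exponent G).factorization q ∧
    m = q ^ (e - 1) * ((k - e) * (q - 1) + 1) ∧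
    r + 1 + m ≤ Fintype.card (InfinitePlace F) + S.card ∧
    ∀ M : Subgroup G, M ≠ ⊤ → IsCyclic (G ⧸ M) → ¬ q ∣ M.index →
      r + m ≤ Nat.card {P : PS S // dgF ι P.pl ≤ M}

open scoped Classical in
/-- the weight of the place `v` for `K = H^N`: if the decomposition group of `v` in `G/N` is a
nontrivial `q`-group, of order `q ^ a`, the weight is `q ^ (j - a)`, where `q ^ j` is the largest
power of `q` dividing `[K : F]` -/
noncomputable def wtN (q : ℕ) (ι : G ≃* (H ≃ₐ[F] H)) (N : Subgroup G) (v : Pl F) : ℕ :=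
  if h : ∃ a : ℕ, 0 < a ∧ N.relIndex (dgF ι v ⊔ N) = q ^ a then
    q ^ (N.index.factorization q) / q ^ h.choose else 0

/-- `r + 2 ≤ #S` and, for all `N ≠ G` with `G/N` cyclic such that only the places below the `w_l`
split completely in `K = H^N`: if `q ^ i` and `q ^ j` are the largest powers of `q` which divide the
order and the index of `N`, then `i ≤ κ` if `j = 0`, and
`q ^ (j - 1) ((i - κ) (q - 1) + 1) + δ ≤ ∑_{v ∈ S} wt(v)` if `j > 0`, where `δ = 1` if `G/N` is a
`q`-group and `δ = 0` otherwise. -/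
def CondQ (q κ : ℕ) (ι : G ≃* (H ≃ₐ[F] H)) (S : Finset (HeightOneSpectrum (𝓞 F))) {r : ℕ}
    (w : Fin r → Pl H) : Prop :=
  r + 2 ≤ Fintype.card (InfinitePlace F) + S.card ∧
  ∀ (N : Subgroup G) (i j : ℕ), IsCyclic (G ⧸ N) → N ≠ ⊤ → NoX ι S w N →
    i = (Nat.card N).factorization q → j = N.index.factorization q →
    (j = 0 → i ≤ κ) ∧
    (0 < j → q ^ (j - 1) * (i * (q - 1) + 1) + (if N.index = q ^ j then 1 else 0) ≤
      (∑ P : PS S, wtN q ι N P.pl) + q ^ (j - 1) * (κ * (q - 1)))

end W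

/-- `H` is Galois over a number field `F₀ ⊆ F`, `Gal(H/F₀)` is isomorphic to a product of symmetric
groups, and `H/F` is cyclic. -/
def SymC (F H : Type) [Field F] [NumberField F] [Field H] [NumberField H] [Algebra F H] : Prop :=
  IsCyclic (H ≃ₐ[F] H) ∧ ∃ (F₀ : Type) (_ : Field F₀) (_ : NumberField F₀) (_ : Algebra F₀ F)
    (_ : Algebra F₀ H) (_ : IsScalarTower F₀ F H) (_ : IsGalois F₀ H) (k : ℕ) (n : Fin k → ℕ),
    Nonempty ((H ≃ₐ[F₀] H) ≃* ((i : Fin k) → Equiv.Perm (Fin (n i))))

/-- The condition on the extension `H/F` with group `G`: `HolT`, `KumN`, `SymC`, or: `PermLay` and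
`AutAt` hold for all cyclic extensions `K = H^N` of `F` in `H`, or: `G` is a `p`-group and `Hol3`
holds for all these extensions. -/
def FamQ {F H : Type} [Field F] [NumberField F] [Field H] [NumberField H] [Algebra F H]
    {G : Type} [CommGroup G] (ι : G ≃* (H ≃ₐ[F] H)) : Prop :=
  HolT F H ∨ KumN F H ∨ SymC F H ∨
    (∀ N : Subgroup G, IsCyclic (G ⧸ N) → (N ≠ ⊤ → PermLay F (Kf ι N)) ∧
      ∀ q : ℕ, q.Prime → AutAt q F (Kf ι N)) ∨
    ∃ p : ℕ, p.Prime ∧ IsPGroup p G ∧
      ∀ N : Subgroup G, IsCyclic (G ⧸ N) → Hol3 p N.index F (Kf ι N)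

end Pool.Agent.CR
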