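import Pool.Agent.Lib_helper17.CR.DefsE

/-!
# Composite Rubin (CR): the statements
-/

set_option autoImplicit false
set_option linter.unusedSectionVars false

namespace Pool.Agent.CRF

open Pool.Agent.RSK Pool.Agent.RS2 Pool.Agent.RS3 Pool.Agent.SY Pool.Agent.AU Pool.Agent.CR
open NumberField IsDedekindDomain
open scoped TensorProduct

section M

variable {R M A B : Type} [CommRing R] [AddCommGroup M] [Module R M] [CommRing A] [Algebra R A]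
  [Module ℚ A] [CommRing B] [Module ℚ B] {r : ℕ}

/-- In the application `R = ℤ[G]`, `A = ℝ[G]`, `B = ℚ[G]` and `j : R → B` is the inclusion. The
element `u ∈ ℚ ⊗ ⋀^r_R M` is killed by `I`, `l_1 ∧ … ∧ l_r` maps `u` to `Θ`, and for `a ∈ J` all
maps `ψ_1 ∧ … ∧ ψ_r` with `ψ_i ∈ Hom_R(M, R)` map `a u` to `R`. -/
structure IsRubOn (j : R →+* B) (l : Fin r → (M →ₗ[R] A)) (I J : Set R) (Θ : A)
    (u : (⋀[R]^r M) ⊗[ℤ] ℚ) : Prop where
  /-- `I` annihilates `u` -/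
  er : ∀ a ∈ I, a • u = 0
  /-- `(l_1 ∧ … ∧ l_r)(u) = Θ` -/
  value : extQ (detMap l).toAddMonoidHom u = Θ
  /-- `ψ_1 ∧ … ∧ ψ_r` maps `a u` to `R`, for all `a ∈ J` and `ψ_i ∈ Hom_R(M, R)` -/
  integral : ∀ a ∈ J, ∀ ψ : Fin r → (M →ₗ[R] R), ∃ b : R,
    extQ (j.toAddMonoidHom.comp (detMap ψ).toAddMonoidHom) (a • u) = j b

/-- there is an element `u` with `IsRubOn` -/
def HasRubOn (j : R →+* B) (l : Fin r → (M →ₗ[R] A)) (I J : Set R) (Θ : A) : Prop :=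
  ∃ u : (⋀[R]^r M) ⊗[ℤ] ℚ, IsRubOn j l I J Θ u

/-- For all `u` with `IsStk l I Θ u`, the element `a u` is integral locally at `q`. -/
def MulInt (j : R →+* B) (q : ℕ) (a : R) (l : Fin r → (M →ₗ[R] A)) (I : Set R) (Θ : A) : Prop :=
  ∀ u : (⋀[R]^r M) ⊗[ℤ] ℚ, IsStk l I Θ u → LocInt j q 0 (a • u)

end M

section W

variable {F H : Type} [Field F] [NumberField F] [Field H] [NumberField H] [Algebra F H]
  {G : Type} [CommGroup G] [Fintype G]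

/-- For every rational Stark element `u ∈ ℚ ⊗ ⋀^r U_{S,T}`, the element `a u` lies in Rubin's
lattice locally at the prime `q`. (Notation as in `StarkInt`.) -/
def StarkMul (q : ℕ) (a : MonoidAlgebra ℤ G) (ι : G ≃* (H ≃ₐ[F] H))
    (S T : Finset (HeightOneSpectrum (𝓞 F))) {r : ℕ} (w : Fin r → Pl H)
    (fr : HeightOneSpectrum (𝓞 F) → G) : Prop :=
  ∀ (c : (G →* ℂˣ) → ℂ) (Θ : MonoidAlgebra ℝ G), Lead S T r fr c → (∀ χ, evR χ Θ = c χ⁻¹) →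
    ∀ (M : Type) (_ : AddCommGroup M) (_ : Module (MonoidAlgebra ℤ G) M) (e : M → Hˣ)
      (l : Fin r → (M →ₗ[MonoidAlgebra ℤ G] MonoidAlgebra ℝ G)), IsMod ι S T w e l →
        MulInt (toQ G) q a l {a | ∀ χ, Cont ι S w χ → evZ χ a = 0} Θ

/-- There is an element `u = e_r u` with `(w_1^* ∧ … ∧ w_r^*)(λ(u)) = Θ` such that `a u` lies in
Rubin's lattice for all `a ∈ J`. For `1 ∈ J` this is Rubin's conjecture. -/
def RubinOn (J : Set (MonoidAlgebra ℤ G)) (ι : G ≃* (H ≃ₐ[F] H))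
    (S T : Finset (HeightOneSpectrum (𝓞 F))) {r : ℕ} (w : Fin r → Pl H)
    (fr : HeightOneSpectrum (𝓞 F) → G) : Prop :=
  ∃ (c : (G →* ℂˣ) → ℂ) (Θ : MonoidAlgebra ℝ G), Lead S T r fr c ∧ (∀ χ, evR χ Θ = c χ⁻¹) ∧
    ∃ (M : Type) (_ : AddCommGroup M) (_ : Module (MonoidAlgebra ℤ G) M) (e : M → Hˣ)
      (l : Fin r → (M →ₗ[MonoidAlgebra ℤ G] MonoidAlgebra ℝ G)), IsMod ι S T w e l ∧
        HasRubOn (toQ G) l {a | ∀ χ, c χ ≠ 0 → evZ χ a = 0} J Θ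

theorem starkMul_of {q : ℕ} {a : MonoidAlgebra ℤ G} {ι : G ≃* (H ≃ₐ[F] H)}
    {S T : Finset (HeightOneSpectrum (𝓞 F))} {r : ℕ} {w : Fin r → Pl H}
    {fr : HeightOneSpectrum (𝓞 F) → G} (h : CR.StarkMul q a ι S T w fr) :
    StarkMul q a ι S T w fr := by
  intro c Θ hL hΘ M i1 i2 e l hM u hu
  exact h c Θ hL hΘ M i1 i2 e l hM u hu

theorem rubinOn_of {J : Set (MonoidAlgebra ℤ G)} {ι : G ≃* (H ≃ₐ[F] H)}
    {S T : Finset (HeightOneSpectrum (𝓞 F))} {r : ℕ} {w : Fin r → Pl H}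
    {fr : HeightOneSpectrum (𝓞 F) → G} (h : CR.RubinOn J ι S T w fr) :
    RubinOn J ι S T w fr := by
  obtain ⟨c, Θ, hL, hΘ, M, i1, i2, e, l, hM, u, h1, h2, h3⟩ := h
  exact ⟨c, Θ, hL, hΘ, M, i1, i2, e, l, hM, u, ⟨h1, h2, h3⟩⟩

end W

end Pool.Agent.CRF
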