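import Pool.Agent.Lib_helper17.CR.DefsA

/-!
# Composite Rubin (CR): basic facts on `Eql`, `alt` and `als`
-/

set_option autoImplicit false
set_option linter.unusedSectionVars false

namespace Pool.Agent.CR

open Filter Topology

/-! ## `Eql` -/

section E

variable {l : ℕ}

theorem ndvd_ne {a : ℕ} (h : ¬ l ∣ a) : a ≠ 0 := fun h0 => h (h0 ▸ dvd_zero l)

theorem ndvd_mul (hl : l.Prime) {a b : ℕ} (ha : ¬ l ∣ a) (hb : ¬ l ∣ b) : ¬ l ∣ a * b :=
  fun h => (hl.dvd_mul.1 h).elim ha hb

theorem ndvd_one (hl : l.Prime) : ¬ l ∣ 1 := fun h => hl.one_lt.ne' (Nat.dvd_one.1 h)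

theorem ndvd_pow (hl : l.Prime) {a : ℕ} (ha : ¬ l ∣ a) (n : ℕ) : ¬ l ∣ a ^ n :=
  fun h => ha (hl.dvd_of_dvd_pow h)

theorem ndvd_dvd {a b : ℕ} (ha : ¬ l ∣ a) (h : b ∣ a) : ¬ l ∣ b := fun h' => ha (h'.trans h)

theorem eql_refl (hl : l.Prime) (x : ℝ) : Eql l x x := ⟨1, 1, ndvd_one hl, ndvd_one hl, rfl⟩

theorem eql_of_eq (hl : l.Prime) {x y : ℝ} (h : x = y) : Eql l x y := h ▸ eql_refl hl x

theorem Eql.symm {x y : ℝ} (h : Eql l x y) : Eql l y x := by
  obtain ⟨a, b, ha, hb, e⟩ := h
  exact ⟨b, a, hb, ha, e.symm⟩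

theorem Eql.trans (hl : l.Prime) {x y z : ℝ} (h : Eql l x y) (h' : Eql l y z) : Eql l x z := by
  obtain ⟨a, b, ha, hb, e⟩ := h
  obtain ⟨a', b', ha', hb', e'⟩ := h'
  refine ⟨a' * a, b * b', ndvd_mul hl ha' ha, ndvd_mul hl hb hb', ?_⟩
  push_cast
  rw [mul_assoc, e, mul_assoc, ← e']
  ring

theorem Eql.mul (hl : l.Prime) {x y x' y' : ℝ} (h : Eql l x y) (h' : Eql l x' y') :
    Eql l (x * x') (y * y') := by
  obtain ⟨a, b, ha, hb, e⟩ := h
  obtain ⟨a', b', ha', hb', e'⟩ := h'
  refine ⟨a * a', b * b', ndvd_mul hl ha ha', ndvd_mul hl hb hb', ?_⟩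
  push_cast
  rw [mul_mul_mul_comm, e, e', mul_mul_mul_comm]

theorem Eql.inv {x y : ℝ} (h : Eql l x y) : Eql l x⁻¹ y⁻¹ := by
  obtain ⟨a, b, ha, hb, e⟩ := h
  refine ⟨b, a, hb, ha, ?_⟩
  have ha0 : (a : ℝ) ≠ 0 := Nat.cast_ne_zero.2 (ndvd_ne ha)
  have hb0 : (b : ℝ) ≠ 0 := Nat.cast_ne_zero.2 (ndvd_ne hb)
  by_cases hx : x = 0
  · subst hx
    rw [mul_zero] at e
    have hy : y = 0 := by
      rcases mul_eq_zero.1 e.symm with h | h
      · exact absurd h hb0
      · exact h
    rw [hy, inv_zero, mul_zero, mul_zero]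
  · have hy : y ≠ 0 := by
      rintro rfl
      rw [mul_zero] at e
      exact (mul_ne_zero ha0 hx) e
    field_simp
    linarith

theorem Eql.div (hl : l.Prime) {x y x' y' : ℝ} (h : Eql l x y) (h' : Eql l x' y') :
    Eql l (x / x') (y / y') := by
  rw [div_eq_mul_inv, div_eq_mul_inv]
  exact h.mul hl h'.inv

theorem Eql.pow (hl : l.Prime) {x y : ℝ} (h : Eql l x y) (n : ℕ) : Eql l (x ^ n) (y ^ n) := by
  obtain ⟨a, b, ha, hb, e⟩ := h
  refine ⟨a ^ n, b ^ n, ndvd_pow hl ha n, ndvd_pow hl hb n, ?_⟩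
  push_cast
  rw [← mul_pow, e, mul_pow]

theorem Eql.ne {x y : ℝ} (h : Eql l x y) (hx : x ≠ 0) : y ≠ 0 := by
  obtain ⟨a, b, ha, hb, e⟩ := h
  rintro rfl
  rw [mul_zero] at e
  exact (mul_ne_zero (Nat.cast_ne_zero.2 (ndvd_ne ha)) hx) e

theorem eql_unit (hl : l.Prime) {a : ℕ} (ha : ¬ l ∣ a) (x : ℝ) : Eql l ((a : ℝ) * x) x :=
  ⟨1, a, ndvd_one hl, ha, by rw [Nat.cast_one, one_mul]⟩

theorem eql_one (hl : l.Prime) {a : ℕ} (ha : ¬ l ∣ a) : Eql l (a : ℝ) 1 :=
  ⟨1, a, ndvd_one hl, ha, by rw [Nat.cast_one, one_mul, mul_one]⟩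

/-- two natural numbers `≠ 0` agree up to `l`-units if and only if each divides a multiple prime to
`l` of the other -/
theorem eql_dvd (hl : l.Prime) {m n : ℕ} {a b : ℕ} (ha : ¬ l ∣ a) (hb : ¬ l ∣ b) (h : m ∣ a * n)
    (h' : n ∣ b * m) (hm : m ≠ 0) : Eql l (m : ℝ) n := by
  obtain ⟨c, hc⟩ := h
  obtain ⟨d, hd⟩ := h'
  have e : a * b = c * d := by
    have : m * (a * b) = m * (c * d) := by
      calc m * (a * b) = a * (b * m) := by ring
        _ = a * (n * d) := by rw [hd]
        _ = a * n * d := by ring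
        _ = m * c * d := by rw [hc]
        _ = m * (c * d) := by ring
    exact Nat.eq_of_mul_eq_mul_left (Nat.pos_of_ne_zero hm) this
  refine ⟨c, a, ndvd_dvd (ndvd_mul hl ha hb) (e ▸ dvd_mul_right c d), ha, ?_⟩
  have := congrArg (Nat.cast : ℕ → ℝ) hc
  push_cast at this
  linarith

end E

/-! ## `alt` and `als` -/

section A

variable {G : Type} [Group G] {k : Type} [Field k]

theorem alt_nil (f : Subgroup G → k) (D : Subgroup G) : alt f [] D = f D := rfl

theorem alt_cons (f : Subgroup G → k) (P : Subgroup G) (L : List (Subgroup G)) (D : Subgroup G) :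
    alt f (P :: L) D = alt f L D / alt f L (D ⊔ P) := rfl

theorem als_nil (f : Subgroup G → ℤ) (D : Subgroup G) : als f [] D = f D := rfl

theorem als_cons (f : Subgroup G → ℤ) (P : Subgroup G) (L : List (Subgroup G)) (D : Subgroup G) :
    als f (P :: L) D = als f L D - als f L (D ⊔ P) := rfl

theorem alt_mul (f g : Subgroup G → k) (L : List (Subgroup G)) (D : Subgroup G) :
    alt (fun D => f D * g D) L D = alt f L D * alt g L D := by
  induction L generalizing D with
  | nil => rfl
  | cons P L ih => rw [alt_cons, alt_cons, alt_cons, ih, ih, mul_div_mul_comm]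

theorem alt_inv (f : Subgroup G → k) (L : List (Subgroup G)) (D : Subgroup G) :
    alt (fun D => (f D)⁻¹) L D = (alt f L D)⁻¹ := by
  induction L generalizing D with
  | nil => rfl
  | cons P L ih => rw [alt_cons, alt_cons, ih, ih, inv_div_inv, inv_div]

theorem alt_div (f g : Subgroup G → k) (L : List (Subgroup G)) (D : Subgroup G) :
    alt (fun D => f D / g D) L D = alt f L D / alt g L D := by
  simp only [div_eq_mul_inv]
  rw [alt_mul, alt_inv]

theorem alt_pow (f : Subgroup G → k) (n : ℕ) (L : List (Subgroup G)) (D : Subgroup G) :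
    alt (fun D => f D ^ n) L D = alt f L D ^ n := by
  induction L generalizing D with
  | nil => rfl
  | cons P L ih => rw [alt_cons, alt_cons, ih, ih, div_pow]

theorem alt_ne {f : Subgroup G → k} (hf : ∀ D, f D ≠ 0) (L : List (Subgroup G))
    (D : Subgroup G) : alt f L D ≠ 0 := by
  induction L generalizing D with
  | nil => exact hf D
  | cons P L ih => exact div_ne_zero (ih D) (ih _)

theorem alt_const {z : k} (hz : z ≠ 0) {L : List (Subgroup G)} (hL : L ≠ []) (D : Subgroup G) :
    alt (fun _ => z) L D = 1 := by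
  have h : ∀ (L : List (Subgroup G)) (D D' : Subgroup G),
      alt (fun _ => z) L D = alt (fun _ => z) L D' := by
    intro L
    induction L with
    | nil => intro D D'; rfl
    | cons P L ih => intro D D'; rw [alt_cons, alt_cons, ih D D', ih (D ⊔ P) (D' ⊔ P)]
  match L, hL with
  | P :: L, _ =>
    rw [alt_cons, h L D (D ⊔ P)]
    exact div_self (alt_ne (fun _ => hz) L _)

theorem alt_pos {f : Subgroup G → ℝ} (hf : ∀ D, 0 < f D) (L : List (Subgroup G))
    (D : Subgroup G) : 0 < alt f L D := by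
  induction L generalizing D with
  | nil => exact hf D
  | cons P L ih => exact div_pos (ih D) (ih _)

/-- the alternating product over `P :: L` of `f` is the one over `L` of `f D / f (D ⊔ P)` -/
theorem alt_shift (f : Subgroup G → k) (P : Subgroup G) (L : List (Subgroup G))
    (D : Subgroup G) : alt f L (D ⊔ P) = alt (fun D => f (D ⊔ P)) L D := by
  induction L generalizing D with
  | nil => rfl
  | cons Q L ih => rw [alt_cons, alt_cons, ← ih, ← ih, sup_right_comm]

theorem alt_cons_shift (f : Subgroup G → k) (P : Subgroup G) (L : List (Subgroup G))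
    (D : Subgroup G) : alt f (P :: L) D = alt (fun D => f D / f (D ⊔ P)) L D := by
  rw [alt_cons, alt_shift, ← alt_div]

theorem alt_perm (f : Subgroup G → k) {L L' : List (Subgroup G)} (h : L.Perm L')
    (D : Subgroup G) : alt f L D = alt f L' D := by
  induction h generalizing D with
  | nil => rfl
  | cons P _ ih => rw [alt_cons, alt_cons, ih, ih]
  | swap P Q L => rw [alt_cons, alt_cons, alt_cons, alt_cons, alt_cons, alt_cons, sup_right_comm,
      div_div_div_comm]
  | trans _ _ ih ih' => rw [ih, ih']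

/-- alternating products of functions which agree on a class of subgroups -/
theorem alt_congr {f g : Subgroup G → k} {L : List (Subgroup G)} (Q : Subgroup G → Prop)
    (hQ : ∀ D, Q D → ∀ P ∈ L, Q (D ⊔ P)) (h : ∀ D, Q D → f D = g D) {D : Subgroup G} (hD : Q D) :
    alt f L D = alt g L D := by
  induction L generalizing D with
  | nil => exact h D hD
  | cons P L ih =>
    rw [alt_cons, alt_cons, ih (fun D h P hP => hQ D h P (List.mem_cons_of_mem _ hP)) hD,
      ih (fun D h P hP => hQ D h P (List.mem_cons_of_mem _ hP)) (hQ D hD P List.mem_cons_self)]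

theorem alt_eql {l : ℕ} (hl : l.Prime) {f g : Subgroup G → ℝ} {L : List (Subgroup G)}
    (Q : Subgroup G → Prop) (hQ : ∀ D, Q D → ∀ P ∈ L, Q (D ⊔ P))
    (h : ∀ D, Q D → Eql l (f D) (g D)) {D : Subgroup G} (hD : Q D) :
    Eql l (alt f L D) (alt g L D) := by
  induction L generalizing D with
  | nil => exact h D hD
  | cons P L ih =>
    rw [alt_cons, alt_cons]
    exact (ih (fun D h P hP => hQ D h P (List.mem_cons_of_mem _ hP)) hD).div hl
      (ih (fun D h P hP => hQ D h P (List.mem_cons_of_mem _ hP)) (hQ D hD P List.mem_cons_self))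

theorem alt_zpow {z : k} (hz : z ≠ 0) (e : Subgroup G → ℤ) (L : List (Subgroup G))
    (D : Subgroup G) : alt (fun D => z ^ e D) L D = z ^ als e L D := by
  induction L generalizing D with
  | nil => rfl
  | cons P L ih => rw [alt_cons, als_cons, ih, ih, zpow_sub₀ hz]

theorem als_add (f g : Subgroup G → ℤ) (L : List (Subgroup G)) (D : Subgroup G) :
    als (fun D => f D + g D) L D = als f L D + als g L D := by
  induction L generalizing D with
  | nil => rfl
  | cons P L ih => rw [als_cons, als_cons, als_cons, ih, ih]; ring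

theorem als_sub (f g : Subgroup G → ℤ) (L : List (Subgroup G)) (D : Subgroup G) :
    als (fun D => f D - g D) L D = als f L D - als g L D := by
  induction L generalizing D with
  | nil => rfl
  | cons P L ih => rw [als_cons, als_cons, als_cons, ih, ih]; ring

theorem als_mul (n : ℤ) (f : Subgroup G → ℤ) (L : List (Subgroup G)) (D : Subgroup G) :
    als (fun D => n * f D) L D = n * als f L D := by
  induction L generalizing D with
  | nil => rfl
  | cons P L ih => rw [als_cons, als_cons, ih, ih]; ring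

theorem als_sum {I : Type} (s : Finset I) (f : I → Subgroup G → ℤ) (L : List (Subgroup G))
    (D : Subgroup G) : als (fun D => ∑ i ∈ s, f i D) L D = ∑ i ∈ s, als (f i) L D := by
  induction L generalizing D with
  | nil => rfl
  | cons P L ih => rw [als_cons, ih, ih, ← Finset.sum_sub_distrib]; rfl

theorem als_const (n : ℤ) {L : List (Subgroup G)} (hL : L ≠ []) (D : Subgroup G) :
    als (fun _ => n) L D = 0 := by
  have h : ∀ (L : List (Subgroup G)) (D D' : Subgroup G),
      als (fun _ => n) L D = als (fun _ => n) L D' := by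
    intro L
    induction L with
    | nil => intro D D'; rfl
    | cons P L ih => intro D D'; rw [als_cons, als_cons, ih D D', ih (D ⊔ P) (D' ⊔ P)]
  match L, hL with
  | P :: L, _ =>
    rw [als_cons, h L D (D ⊔ P), sub_self]

theorem als_shift (f : Subgroup G → ℤ) (P : Subgroup G) (L : List (Subgroup G))
    (D : Subgroup G) : als f L (D ⊔ P) = als (fun D => f (D ⊔ P)) L D := by
  induction L generalizing D with
  | nil => rfl
  | cons Q L ih => rw [als_cons, als_cons, ← ih, ← ih, sup_right_comm]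

theorem als_perm (f : Subgroup G → ℤ) {L L' : List (Subgroup G)} (h : L.Perm L')
    (D : Subgroup G) : als f L D = als f L' D := by
  induction h generalizing D with
  | nil => rfl
  | cons P _ ih => rw [als_cons, als_cons, ih, ih]
  | swap P Q L => rw [als_cons, als_cons, als_cons, als_cons, als_cons, als_cons, sup_right_comm]; ring
  | trans _ _ ih ih' => rw [ih, ih']

theorem als_congr {f g : Subgroup G → ℤ} {L : List (Subgroup G)} (Q : Subgroup G → Prop)
    (hQ : ∀ D, Q D → ∀ P ∈ L, Q (D ⊔ P)) (h : ∀ D, Q D → f D = g D) {D : Subgroup G} (hD : Q D) :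
    als f L D = als g L D := by
  induction L generalizing D with
  | nil => exact h D hD
  | cons P L ih =>
    rw [als_cons, als_cons, ih (fun D h P hP => hQ D h P (List.mem_cons_of_mem _ hP)) hD,
      ih (fun D h P hP => hQ D h P (List.mem_cons_of_mem _ hP)) (hQ D hD P List.mem_cons_self)]

theorem alt_tendsto {X : Type} {F : Filter X} {f : X → Subgroup G → ℂ} {c : Subgroup G → ℂ}
    (hc : ∀ D, c D ≠ 0) (h : ∀ D, Tendsto (fun x => f x D) F (𝓝 (c D))) (L : List (Subgroup G))
    (D : Subgroup G) : Tendsto (fun x => alt (f x) L D) F (𝓝 (alt c L D)) := by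
  induction L generalizing D with
  | nil => exact h D
  | cons P L ih => exact (ih D).div (ih _) (alt_ne hc L _)

theorem alt_norm (f : Subgroup G → ℂ) (L : List (Subgroup G)) (D : Subgroup G) :
    ‖alt f L D‖ = alt (fun D => ‖f D‖) L D := by
  induction L generalizing D with
  | nil => rfl
  | cons P L ih => rw [alt_cons, alt_cons, norm_div, ih, ih]

end A

/-- the class of subgroups of order prime to `l` -/
theorem sup_ndvd {G : Type} [CommGroup G] [Finite G] {l : ℕ} (hl : l.Prime)
    {L : List (Subgroup G)} (hL : ∀ P ∈ L, (Nat.card P).Prime ∧ Nat.card P ≠ l) :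
    ∀ D : Subgroup G, ¬ l ∣ Nat.card D → ∀ P ∈ L, ¬ l ∣ Nat.card (D ⊔ P : Subgroup G) := by
  intro D hD P hP h
  have h1 : Nat.card (D ⊔ P : Subgroup G) ∣ Nat.card D * Nat.card P := by
    have h2 := Subgroup.relIndex_mul_relIndex ⊥ D (D ⊔ P) bot_le le_sup_left
    rw [Subgroup.relIndex_bot_left, Subgroup.relIndex_bot_left, Subgroup.relIndex_sup_left] at h2
    rw [← h2]
    exact mul_dvd_mul_left _ (Subgroup.relIndex_dvd_card _ _)
  rcases hl.dvd_mul.1 (h.trans h1) with h2 | h2
  · exact hD h2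
  · exact (hL P hP).2 ((Nat.prime_dvd_prime_iff_eq hl (hL P hP).1).1 h2).symm

end Pool.Agent.CR
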