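import Mathlib

/-!
# Composite Rubin (CR): definitions, algebra
-/

set_option autoImplicit false
set_option linter.unusedSectionVars false

namespace Pool.Agent.CR

/-! ## Real numbers up to rational `l`-units -/

/-- `x` and `y` agree up to a rational number prime to `l`. -/
def Eql (l : ℕ) (x y : ℝ) : Prop := ∃ a b : ℕ, ¬ l ∣ a ∧ ¬ l ∣ b ∧ (a : ℝ) * x = b * y

/-! ## Alternating products over subgroups -/

section Alt

variable {G : Type} [Group G]

/-- the alternating product of the `f (D ⊔ P_1 ⊔ … ⊔ P_k)` over the subsets `{P_1, …, P_k}` of `L` -/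
noncomputable def alt {K : Type} [Field K] (f : Subgroup G → K) :
    List (Subgroup G) → Subgroup G → K
  | [], D => f D
  | P :: L, D => alt f L D / alt f L (D ⊔ P)

/-- the alternating sum -/
def als (f : Subgroup G → ℤ) : List (Subgroup G) → Subgroup G → ℤ
  | [], D => f D
  | P :: L, D => als f L D - als f L (D ⊔ P)

/-- `L` is a list of the subgroups of `G` of prime order, except those of order `l`. -/
structure PrL (G : Type) [Group G] (l : ℕ) (L : List (Subgroup G)) : Prop where
  nodup : L.Nodup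
  prime : ∀ P ∈ L, (Nat.card P).Prime ∧ Nat.card P ≠ l
  all : ∀ P : Subgroup G, (Nat.card P).Prime → Nat.card P ≠ l → P ∈ L

end Alt

/-! ## Types -/

section Typ

variable {G M : Type} [CommGroup G] [AddCommGroup M] (A : G →* AddMonoid.End M)

/-- the action of the sum of the elements of `P` -/
noncomputable def nA (P : Subgroup G) : AddMonoid.End M := ∑ᶠ g : P, A (g : G)

theorem nA_sum [Finite G] (P : Subgroup G) [Fintype P] (u : M) : nA A P u = ∑ g : P, A (g : G) u := by
  unfold nA
  rw [finsum_eq_sum_of_fintype]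
  exact AddMonoidHom.finsetSum_apply _ _ _

/-- the elements on which `D` acts trivially and which are killed by the sums of the elements of the
`P ∈ L` -/
noncomputable def nty (L : List (Subgroup G)) (D : Subgroup G) : AddSubgroup M where
  carrier := {u | (∀ g ∈ D, A g u = u) ∧ ∀ P ∈ L, nA A P u = 0}
  zero_mem' := ⟨fun g _ => map_zero _, fun P _ => map_zero _⟩
  add_mem' := fun {a b} ha hb => ⟨fun g hg => by rw [map_add, ha.1 g hg, hb.1 g hg],
    fun P hP => by rw [map_add, ha.2 P hP, hb.2 P hP, add_zero]⟩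
  neg_mem' := fun {a} ha => ⟨fun g hg => by rw [map_neg, ha.1 g hg],
    fun P hP => by rw [map_neg, ha.2 P hP, neg_zero]⟩

/-- the elements of `N'` whose classes in `N'/N` are invariant under `D` and killed by the sums of the
elements of the `P ∈ L` (if `N`, `N'` are `G`-stable) -/
noncomputable def rty (L : List (Subgroup G)) (D : Subgroup G) (N N' : AddSubgroup M) :
    AddSubgroup M where
  carrier := {u | u ∈ N' ∧ (∀ g ∈ D, A g u - u ∈ N) ∧ ∀ P ∈ L, nA A P u ∈ N}
  zero_mem' := ⟨N'.zero_mem, fun g _ => by rw [map_zero, sub_zero]; exact N.zero_mem,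
    fun P _ => by rw [map_zero]; exact N.zero_mem⟩
  add_mem' := fun {a b} ha hb => ⟨N'.add_mem ha.1 hb.1,
    fun g hg => by
      rw [map_add, add_sub_add_comm]
      exact N.add_mem (ha.2.1 g hg) (hb.2.1 g hg),
    fun P hP => by
      rw [map_add]
      exact N.add_mem (ha.2.2 P hP) (hb.2.2 P hP)⟩
  neg_mem' := fun {a} ha => ⟨N'.neg_mem ha.1,
    fun g hg => by
      rw [map_neg, ← neg_sub']
      exact N.neg_mem (ha.2.1 g hg),
    fun P hP => by
      rw [map_neg]
      exact N.neg_mem (ha.2.2 P hP)⟩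

/-- the endomorphism `∏_{P ∈ L} (#P - nA P)` of `M` -/
noncomputable def thA (L : List (Subgroup G)) : AddMonoid.End M :=
  (L.map fun P : Subgroup G => (Nat.card P • (1 : AddMonoid.End M) - nA A P)).prod

/-- the image of `N` under `g - 1` -/
noncomputable def subA (g : G) (N : AddSubgroup M) : AddSubgroup M :=
  N.map (A g - 1 : AddMonoid.End M)

end Typ

/-! ## Gram determinants -/

section Grm

variable {M : Type} [AddCommGroup M]

open scoped Classical in
/-- the Gram determinant of a `ℤ`-basis of `N` (`0` if `N` is not free of finite rank) -/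
noncomputable def grm (B : M →+ M →+ ℝ) (N : AddSubgroup M) : ℝ :=
  if h : ∃ n : ℕ, Nonempty (Module.Basis (Fin n) ℤ N) then
    Matrix.det (Matrix.of fun i j : Fin h.choose =>
      B (h.choose_spec.some i : N) (h.choose_spec.some j : N))
  else 0

/-- the standard bilinear form on `Ω → ℤ` -/
noncomputable def dotF (Ω : Type) [Fintype Ω] : (Ω → ℤ) →+ (Ω → ℤ) →+ ℝ :=
  AddMonoidHom.mk' (fun x => AddMonoidHom.mk' (fun y => ∑ ω, (x ω : ℝ) * (y ω : ℝ)) (by
    intro y z
    rw [← Finset.sum_add_distrib]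
    refine Finset.sum_congr rfl fun ω _ => ?_
    rw [Pi.add_apply]
    push_cast
    ring)) (by
    intro x x'
    ext y
    show ∑ ω, (((x + x') ω : ℤ) : ℝ) * (y ω : ℝ) = ∑ ω, (x ω : ℝ) * (y ω : ℝ) +
      ∑ ω, (x' ω : ℝ) * (y ω : ℝ)
    rw [← Finset.sum_add_distrib]
    refine Finset.sum_congr rfl fun ω _ => ?_
    rw [Pi.add_apply]
    push_cast
    ring)

/-- the action of `G` on `Ω → ℤ` -/
def pmA {G Ω : Type} [Group G] (ρ : G →* Equiv.Perm Ω) : G →* AddMonoid.End (Ω → ℤ) where
  toFun g := AddMonoidHom.mk' (fun y ω => y (ρ g⁻¹ ω)) (fun _ _ => rfl)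
  map_one' := by
    ext y ω
    show y (ρ 1⁻¹ ω) = y ω
    rw [inv_one, map_one]
    rfl
  map_mul' g h := by
    ext y ω
    show y (ρ (g * h)⁻¹ ω) = y (ρ h⁻¹ (ρ g⁻¹ ω))
    rw [mul_inv_rev, map_mul]
    rfl

end Grm

end Pool.Agent.CR
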