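import Pool.Agent.Lib_helper17.CR.DefsT

/-!
# Composite Rubin (CR): all sets `S`, powers of augmentation ideals
-/

set_option autoImplicit false
set_option linter.unusedSectionVars false

namespace Pool.Agent.CR

open Pool.Agent.RSK Pool.Agent.RS2 Pool.Agent.RS3 Pool.Agent.SY Pool.Agent.AU
open NumberField IsDedekindDomain
open scoped TensorProduct

/-- the ideal `I_q` of `ℤ[G]` generated by the elements `g - 1`, `g` in the Sylow `q`-subgroup -/
noncomputable def augQ (q : ℕ) (G : Type) [CommGroup G] : Ideal (MonoidAlgebra ℤ G) :=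
  Ideal.span {x | ∃ g : G, (∃ k : ℕ, g ^ q ^ k = 1) ∧ x = MonoidAlgebra.single g 1 - 1}

/-- `q ^ (e - 1) ((k - e) (q - 1) + 1)`, where `q ^ k` and `q ^ e` are the largest powers of `q`
dividing the order and the exponent of `G` -/
noncomputable def mQ (q : ℕ) (G : Type) [CommGroup G] : ℕ :=
  q ^ ((Monoid.exponent G).factorization q - 1) *
    (((Nat.card G).factorization q - (Monoid.exponent G).factorization q) * (q - 1) + 1)

section W

variable {F H : Type} [Field F] [NumberField F] [Field H] [NumberField H] [Algebra F H]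
  {G : Type} [CommGroup G] [Fintype G]

/-- `#S + t ≥ r + 1 + m`, and at least `r + m - t` places in `S` have a decomposition group contained
in `M`, for all subgroups `M ≠ G` of index prime to `q` with `G/M` cyclic, where `m = mQ q G`. -/
def SBigE (q t : ℕ) (ι : G ≃* (H ≃ₐ[F] H)) (S : Finset (HeightOneSpectrum (𝓞 F))) (r : ℕ) :
    Prop :=
  r + 1 + mQ q G ≤ Fintype.card (InfinitePlace F) + S.card + t ∧
  ∀ M : Subgroup G, M ≠ ⊤ → IsCyclic (G ⧸ M) → ¬ q ∣ M.index →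
    r + mQ q G ≤ Nat.card {P : PS S // dgF ι P.pl ≤ M} + t

open scoped Classical in
/-- As `CondQ`, with `t` additional places of weight one. -/
def CondT (q κ t : ℕ) (ι : G ≃* (H ≃ₐ[F] H)) (S : Finset (HeightOneSpectrum (𝓞 F))) {r : ℕ}
    (w : Fin r → Pl H) : Prop :=
  r + 2 ≤ Fintype.card (InfinitePlace F) + S.card + t ∧
  ∀ (N : Subgroup G) (i j : ℕ), IsCyclic (G ⧸ N) → N ≠ ⊤ → NoX ι S w N →
    i = (Nat.card N).factorization q → j = N.index.factorization q →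
    (j = 0 → t = 0 → i ≤ κ) ∧
    (0 < j → q ^ (j - 1) * (i * (q - 1) + 1) + (if N.index = q ^ j then 1 else 0) ≤
      (∑ P : PS S, wtN q ι N P.pl) + t + q ^ (j - 1) * (κ * (q - 1)))

/-- The condition under which `q ^ κ I_q ^ t u` is integral at `q`: `q ^ (κ + 1)` does not divide
`#G`, or `t ≥ mQ q G`, or `SBigE`, or `CondT`. -/
def CondE (q κ t : ℕ) (ι : G ≃* (H ≃ₐ[F] H)) (S : Finset (HeightOneSpectrum (𝓞 F))) {r : ℕ}
    (w : Fin r → Pl H) : Prop :=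
  ¬ q ^ (κ + 1) ∣ Nat.card G ∨ mQ q G ≤ t ∨ SBigE q t ι S r ∨ CondT q κ t ι S w

/-- For every rational Stark element `u ∈ ℚ ⊗ ⋀^r U_{S,T}`, the element `a u` lies in Rubin's
lattice locally at the prime `q`. (Notation as in `StarkInt`.) -/
def StarkMul (q : ℕ) (a : MonoidAlgebra ℤ G) (ι : G ≃* (H ≃ₐ[F] H))
    (S T : Finset (HeightOneSpectrum (𝓞 F))) {r : ℕ} (w : Fin r → Pl H)
    (fr : HeightOneSpectrum (𝓞 F) → G) : Prop :=
  ∀ (c : (G →* ℂˣ) → ℂ) (Θ : MonoidAlgebra ℝ G), Lead S T r fr c → (∀ χ, evR χ Θ = c χ⁻¹) →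
    ∀ (M : Type) (_ : AddCommGroup M) (_ : Module (MonoidAlgebra ℤ G) M) (e : M → Hˣ)
      (l : Fin r → (M →ₗ[MonoidAlgebra ℤ G] MonoidAlgebra ℝ G)), IsMod ι S T w e l →
        ∀ u, IsStk l {a | ∀ χ, Cont ι S w χ → evZ χ a = 0} Θ u → LocInt (toQ G) q 0 (a • u)

/-- There is an element `u = e_r u` with `(w_1^* ∧ … ∧ w_r^*)(λ(u)) = Θ` such that `a u` lies in
Rubin's lattice for all `a ∈ J`. For `1 ∈ J` this is Rubin's conjecture. -/
def RubinOn (J : Set (MonoidAlgebra ℤ G)) (ι : G ≃* (H ≃ₐ[F] H))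
    (S T : Finset (HeightOneSpectrum (𝓞 F))) {r : ℕ} (w : Fin r → Pl H)
    (fr : HeightOneSpectrum (𝓞 F) → G) : Prop :=
  ∃ (c : (G →* ℂˣ) → ℂ) (Θ : MonoidAlgebra ℝ G), Lead S T r fr c ∧ (∀ χ, evR χ Θ = c χ⁻¹) ∧
    ∃ (M : Type) (_ : AddCommGroup M) (_ : Module (MonoidAlgebra ℤ G) M) (e : M → Hˣ)
      (l : Fin r → (M →ₗ[MonoidAlgebra ℤ G] MonoidAlgebra ℝ G)), IsMod ι S T w e l ∧
        ∃ u : (⋀[MonoidAlgebra ℤ G]^r M) ⊗[ℤ] ℚ,
          (∀ a : MonoidAlgebra ℤ G, (∀ χ, c χ ≠ 0 → evZ χ a = 0) → a • u = 0) ∧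
          extQ (detMap l).toAddMonoidHom u = Θ ∧
          ∀ a ∈ J, ∀ ψ : Fin r → (M →ₗ[MonoidAlgebra ℤ G] MonoidAlgebra ℤ G),
            ∃ b : MonoidAlgebra ℤ G,
              extQ ((toQ G).toAddMonoidHom.comp (detMap ψ).toAddMonoidHom) (a • u) = toQ G b

/-- The elements `a ∈ ℤ[G]` such that for every prime `q` there are `κ` and `t` with `CondE` such
that `a` lies in `q ^ κ I_q ^ t` locally at `q`. -/
def admE (ι : G ≃* (H ≃ₐ[F] H)) (S : Finset (HeightOneSpectrum (𝓞 F))) {r : ℕ}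
    (w : Fin r → Pl H) : Set (MonoidAlgebra ℤ G) :=
  {a | ∀ q : ℕ, q.Prime → ∃ κ t m : ℕ, CondE q κ t ι S w ∧ ¬ q ∣ m ∧
    ∃ b ∈ augQ q G ^ t, (m : MonoidAlgebra ℤ G) * a = (q : MonoidAlgebra ℤ G) ^ κ * b}

end W

end Pool.Agent.CR
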