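import Pool.Agent.Lib_helper17.CR.DefsA
import Pool.Agent.Lib_helper17.CR.DefsT

/-!
# Composite Rubin (CR): definitions for the layers
-/

set_option autoImplicit false
set_option linter.unusedSectionVars false

namespace Pool.Agent.CR

open Pool.Agent.RSK Pool.Agent.RS2 Pool.Agent.RS3 Pool.Agent.SY Pool.Agent.AU
open NumberField IsDedekindDomain Filter Topology Complex

/-! ## Characters and group rings -/

section Chars

variable {G : Type} [CommGroup G]

/-- the product over the injective characters -/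
noncomputable def pI (φ : (G →* ℂˣ) → ℂ) : ℂ :=
  ∏ᶠ χ : {χ : G →* ℂˣ // Function.Injective χ}, φ χ.1

/-- `s` generates the subgroup of the elements of `l`-power order -/
def SylG (l : ℕ) (s : G) : Prop := ∀ g : G, (∃ i : ℕ, g ^ l ^ i = 1) ↔ g ∈ Subgroup.zpowers s

/-- locally at `l`, the values of `y` at the injective characters are divisible by
`(χ(s) - 1) ^ M` -/
def LDiv (l M : ℕ) (s : G) (y : MonoidAlgebra ℚ G) : Prop :=
  ∃ (k : ℕ) (a : MonoidAlgebra ℤ G), ¬ l ∣ k ∧ ∀ χ : G →* ℂˣ, Function.Injective χ →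
    (k : ℂ) * evQ χ y = ((χ s : ℂˣ) - 1 : ℂ) ^ M * evZ χ a

/-- `η` generates the ideal of the elements of `ℤ[G]` which vanish at all characters which are not
injective -/
structure Eta (η : MonoidAlgebra ℤ G) : Prop where
  off : ∀ χ : G →* ℂˣ, ¬ Function.Injective χ → evZ χ η = 0
  on : ∀ χ : G →* ℂˣ, Function.Injective χ → evZ χ η ≠ 0
  gen : ∀ a : MonoidAlgebra ℤ G, (∀ χ : G →* ℂˣ, ¬ Function.Injective χ → evZ χ a = 0) →
    ∃ b : MonoidAlgebra ℤ G, a = η * b

open scoped Classical in
/-- the weight of a subgroup `B`: `l ^ j / #B` if `B` is a nontrivial `l`-group, where `l ^ j` is the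
largest power of `l` dividing `#G`, and `0` otherwise -/
noncomputable def wtB (l : ℕ) (B : Subgroup G) : ℕ :=
  if B ≠ ⊥ ∧ ∀ g ∈ B, ∃ i : ℕ, g ^ l ^ i = 1 then
    l ^ (Nat.card G).factorization l / Nat.card B else 0

open scoped Classical in
/-- `1` if `G` is an `l`-group and `0` otherwise -/
noncomputable def del (l : ℕ) (G : Type) [CommGroup G] : ℕ :=
  if ∀ g : G, ∃ i : ℕ, g ^ l ^ i = 1 then 1 else 0

end Chars

/-! ## Families of subgroups -/

section Fam

variable {G I : Type} [CommGroup G] [Fintype I] (B : I → Subgroup G)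

/-- the number of `D`-orbits on the disjoint union of the `G/B_i` -/
noncomputable def cD (D : Subgroup G) : ℕ := ∑ i, (B i ⊔ D).index

/-- the product of `#(D ∩ B_i)` over the `D`-orbits -/
noncomputable def nD (D : Subgroup G) : ℕ := ∏ i, Nat.card (D ⊓ B i : Subgroup G) ^ (B i ⊔ D).index

open scoped Classical in
/-- the number of `D`-orbits on the `G/B_i` for the `i` with `P ≤ B_i` -/
noncomputable def eD (P D : Subgroup G) : ℕ := ∑ i, if P ≤ B i then (B i ⊔ D).index else 0

end Fam

/-! ## Modules -/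

section Mod

/-- the action of `G` on a `ℤ[G]`-module -/
noncomputable def smA (G M : Type) [CommGroup G] [AddCommGroup M]
    [Module (MonoidAlgebra ℤ G) M] : G →* AddMonoid.End M where
  toFun g := DistribSMul.toAddMonoidHom M (MonoidAlgebra.single g (1 : ℤ) : MonoidAlgebra ℤ G)
  map_one' := by
    ext u
    show (MonoidAlgebra.single (1 : G) (1 : ℤ) : MonoidAlgebra ℤ G) • u = u
    rw [← MonoidAlgebra.one_def, one_smul]
  map_mul' g h := by
    ext u
    show (MonoidAlgebra.single (g * h) (1 : ℤ) : MonoidAlgebra ℤ G) • u =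
      (MonoidAlgebra.single g (1 : ℤ) : MonoidAlgebra ℤ G) •
        (MonoidAlgebra.single h (1 : ℤ) : MonoidAlgebra ℤ G) • u
    rw [← mul_smul, MonoidAlgebra.single_mul_single, one_mul]

/-- the new part of a module: the elements which are killed by the norm elements of all subgroups
of prime order -/
noncomputable def mI {G M : Type} [CommGroup G] [AddCommGroup M] (A : G →* AddMonoid.End M) :
    AddSubgroup M where
  carrier := {u | ∀ P : Subgroup G, (Nat.card P).Prime → nA A P u = 0}
  zero_mem' := fun P _ => map_zero _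
  add_mem' := fun {a b} ha hb P hP => by rw [map_add, ha P hP, hb P hP, add_zero]
  neg_mem' := fun {a} ha P hP => by rw [map_neg, ha P hP, neg_zero]

end Mod

/-! ## Number fields -/

section NF

open scoped Classical in
/-- the regulator of a basis of `U_{S,T}` -/
noncomputable def rgU {k : Type} [Field k] [NumberField k]
    (S T : Finset (HeightOneSpectrum (𝓞 k))) : ℝ :=
  if h : ∃ n : ℕ, Nonempty (Module.Basis (Fin n) ℤ (Additive (Un S T))) then
    regS S (bu h.choose_spec.some) else 0

variable {F K : Type} [Field F] [NumberField F] [Field K] [NumberField K] [Algebra F K]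
  {G : Type} [CommGroup G] [Fintype G] (ι : G ≃* (K ≃ₐ[F] K))
  (S T : Finset (HeightOneSpectrum (𝓞 F)))

/-- the class number of the fixed field of `D` -/
noncomputable def hK (D : Subgroup G) : ℕ := hA (ovr (Kf ι D) S) (ovr (Kf ι D) T)

/-- the regulator of the fixed field of `D` -/
noncomputable def rK (D : Subgroup G) : ℝ := rgU (ovr (Kf ι D) S) (ovr (Kf ι D) T)

/-- the action of `G` on the places of `K` above `S` -/
noncomputable def acG : G →* Equiv.Perm (PS (ovr K S)) := (acH K S).comp ι.toMonoidHom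

/-- the inner product of the logarithm vectors -/
noncomputable def BU : UM ι S T →+ UM ι S T →+ ℝ :=
  AddMonoidHom.mk' (fun u => AddMonoidHom.mk' (fun v =>
    ∑ P : PS (ovr K S), lg P.pl (u.val : K) * lg P.pl (v.val : K)) (by
      intro v v'
      rw [← Finset.sum_add_distrib]
      refine Finset.sum_congr rfl fun P _ => ?_
      rw [UM.val_add, Units.val_mul, lg_mul _ v.val.ne_zero v'.val.ne_zero]
      ring)) (by
    intro u u'
    ext v
    show ∑ P : PS (ovr K S), lg P.pl ((u + u').val : K) * lg P.pl (v.val : K) =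
      ∑ P : PS (ovr K S), lg P.pl (u.val : K) * lg P.pl (v.val : K) +
        ∑ P : PS (ovr K S), lg P.pl (u'.val : K) * lg P.pl (v.val : K)
    rw [← Finset.sum_add_distrib]
    refine Finset.sum_congr rfl fun P _ => ?_
    rw [UM.val_add, Units.val_mul, lg_mul _ u.val.ne_zero u'.val.ne_zero]
    ring)

/-- the decomposition groups of the places in `S` -/
def dgS (P : PS S) : Subgroup G := dgF ι P.pl

/-- the sum of the weights of the places in `S` -/
noncomputable def wts (l : ℕ) : ℕ := ∑ P : PS S, wtB l (dgS ι S P)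

/-- the action of `g` on the finite places of `K` -/
noncomputable def plE (g : G) : HeightOneSpectrum (𝓞 K) ≃ HeightOneSpectrum (𝓞 K) :=
  HeightOneSpectrum.equivOfRingEquiv (RingOfIntegers.mapRingEquiv (ι g).toRingEquiv)

theorem plE_act (g : G) (W : HeightOneSpectrum (𝓞 K)) :
    (Sum.inr (plE ι g W) : Pl K) = act (ι g) (Sum.inr W) := rfl

theorem plE_one (W : HeightOneSpectrum (𝓞 K)) : plE ι 1 W = W := by
  have h := plE_act ι 1 W
  rw [map_one, act_one] at h
  exact Sum.inr.inj h

theorem plE_mul (g h : G) (W : HeightOneSpectrum (𝓞 K)) :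
    plE ι (g * h) W = plE ι g (plE ι h W) := by
  have e := plE_act ι (g * h) W
  rw [map_mul, act_mul, ← plE_act, ← plE_act] at e
  exact Sum.inr.inj e

/-- the action of `G` on the divisors of `K` -/
noncomputable def dvA : G →* AddMonoid.End (HeightOneSpectrum (𝓞 K) →₀ ℤ) where
  toFun g := Finsupp.mapDomain.addMonoidHom (plE ι g)
  map_one' := by
    refine AddMonoidHom.ext fun E => ?_
    show Finsupp.mapDomain (plE ι 1) E = E
    have h : (plE ι 1 : HeightOneSpectrum (𝓞 K) → HeightOneSpectrum (𝓞 K)) = id :=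
      funext fun W => plE_one ι W
    rw [h, Finsupp.mapDomain_id]
  map_mul' g h := by
    refine AddMonoidHom.ext fun E => ?_
    show Finsupp.mapDomain (plE ι (g * h)) E =
      Finsupp.mapDomain (plE ι g) (Finsupp.mapDomain (plE ι h) E)
    rw [← Finsupp.mapDomain_comp]
    congr 1
    exact funext fun W => plE_mul ι g h W

/-- the `D`-invariant divisors of `K` which are prime to `T` -/
noncomputable def DvI (D : Subgroup G) : AddSubgroup (HeightOneSpectrum (𝓞 K) →₀ ℤ) where
  carrier := {E | E ∈ Dv (ovr K T) ∧ ∀ g ∈ D, dvA ι g E = E}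
  zero_mem' := ⟨(Dv _).zero_mem, fun g _ => map_zero _⟩
  add_mem' := fun {a b} ha hb => ⟨(Dv _).add_mem ha.1 hb.1, fun g hg => by
    rw [map_add, ha.2 g hg, hb.2 g hg]⟩
  neg_mem' := fun {a} ha => ⟨(Dv _).neg_mem ha.1, fun g hg => by rw [map_neg, ha.2 g hg]⟩

/-- the `D`-invariant divisors of `K` which agree outside `S` with the divisor of some `D`-invariant
`x ≡ 1 mod T` -/
noncomputable def PrI (D : Subgroup G) : AddSubgroup (HeightOneSpectrum (𝓞 K) →₀ ℤ) where
  carrier := {E | E ∈ DvI ι T D ∧ ∃ x ∈ KT (ovr K T), (∀ g ∈ D, ι g (x : K) = x) ∧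
    ∀ W, W ∉ ovr K S → E W = ordv W (x : K)}
  zero_mem' := ⟨(DvI ι T D).zero_mem, 1, (KT _).one_mem, fun g _ => by
    rw [Units.val_one, map_one], fun W _ => by rw [Units.val_one, ordv_one]; rfl⟩
  add_mem' := by
    rintro a b ⟨ha, x, hx, hxD, hax⟩ ⟨hb, y, hy, hyD, hby⟩
    refine ⟨(DvI ι T D).add_mem ha hb, x * y, (KT _).mul_mem hx hy, fun g hg => ?_,
      fun W hW => ?_⟩
    · rw [Units.val_mul, map_mul, hxD g hg, hyD g hg]
    · rw [Finsupp.add_apply, hax W hW, hby W hW, ordv_mul]
  neg_mem' := by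
    rintro a ⟨ha, x, hx, hxD, hax⟩
    refine ⟨(DvI ι T D).neg_mem ha, x⁻¹, (KT _).inv_mem hx, fun g hg => ?_, fun W hW => ?_⟩
    · rw [Units.val_inv_eq_inv_val, map_inv₀, hxD g hg]
    · rw [Finsupp.neg_apply, hax W hW, ordv_inv]

variable {S T}

theorem un_mono {S' T' : Finset (HeightOneSpectrum (𝓞 F))} (hS : S ⊆ S') (hT : T' ⊆ T) {x : Kˣ}
    (hx : x ∈ Un (ovr K S) (ovr K T)) : x ∈ Un (ovr K S') (ovr K T') :=
  ⟨fun v hv => hx.1 v fun h => hv (mem_ovr.2 (hS (mem_ovr.1 h))),
    fun v hv => hx.2 v (mem_ovr.2 (hT (mem_ovr.1 hv)))⟩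

/-- the inclusion of groups of units, for `S ⊆ S'` and `T' ⊆ T` -/
noncomputable def incU {S' T' : Finset (HeightOneSpectrum (𝓞 F))} (hS : S ⊆ S') (hT : T' ⊆ T) :
    UM ι S T →ₗ[MonoidAlgebra ℤ G] UM ι S' T' where
  toFun u := UM.mk u.val (un_mono hS hT u.val_mem)
  map_add' u v := UM.ext (by rw [UM.val_mk, UM.val_add, UM.val_add, UM.val_mk, UM.val_mk])
  map_smul' a u := by
    have hadd : ∀ u v : UM ι S T, (UM.mk (u + v).val (un_mono hS hT (u + v).val_mem) :
        UM ι S' T') = UM.mk u.val (un_mono hS hT u.val_mem) +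
          UM.mk v.val (un_mono hS hT v.val_mem) := fun u v =>
      UM.ext (by rw [UM.val_mk, UM.val_add, UM.val_add, UM.val_mk, UM.val_mk])
    let f : UM ι S T →+ UM ι S' T' := AddMonoidHom.mk' (fun u => UM.mk u.val
      (un_mono hS hT u.val_mem)) hadd
    show f (a • u) = a • f u
    induction a using MonoidAlgebra.induction_on with
    | of g =>
      have h : MonoidAlgebra.of ℤ G g = MonoidAlgebra.single g 1 := rfl
      rw [h]
      refine UM.ext ?_
      show (MonoidAlgebra.single g (1 : ℤ) • u).val = (MonoidAlgebra.single g (1 : ℤ) • f u).val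
      rw [um_single_smul, um_single_smul]
      rfl
    | add a b ha hb => rw [add_smul, add_smul, map_add, ha, hb]
    | smul c a ha =>
      have h : (c • a) • u = c • (a • u) := smul_assoc c a u
      have h' : (c • a) • f u = c • (a • f u) := smul_assoc c a (f u)
      rw [h, h', map_zsmul, ha]

theorem incU_val {S' T' : Finset (HeightOneSpectrum (𝓞 F))} (hS : S ⊆ S') (hT : T' ⊆ T)
    (u : UM ι S T) : (incU ι hS hT u).val = u.val := rfl

/-- the layer `K/F` has an element of the new part with `l`-integral values, divisible by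
`(χ(s) - 1) ^ M` -/
def CCore (S T : Finset (HeightOneSpectrum (𝓞 F))) {r : ℕ} (w : Fin r → Pl K)
    (fr : HeightOneSpectrum (𝓞 F) → G) (l M : ℕ) (s : G) : Prop :=
  ∃ c : (G →* ℂˣ) → ℂ, LeadI S T r fr c ∧ (∀ χ : G →* ℂˣ, Function.Injective χ → c χ ≠ 0) ∧
    ∃ (b : Fin r → UM ι S T) (x : MonoidAlgebra ℚ G), CoreF ι S T w c b x ∧
      ∀ ψ : Fin r → (UM ι S T →ₗ[MonoidAlgebra ℤ G] MonoidAlgebra ℤ G),
        LDiv l M s (x * toQ G (pmat ψ b).det)

end NF

end Pool.Agent.CR
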